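import Pool.Agent.H547.P4.R9f27ff

set_option autoImplicit false

/-!
# `∑ C(2k,k)³/64^k ≡ (3/p) ∑ C_k/12^{3k} ≡ (33/p) ∑ C_k/66^{3k} (mod p³)` for `p ≡ 1 (mod 4)`

`z ↦ z²/(1-16z)³` sends `z = 1/64` and `z = -1/8` to `1/12³` and `z = -1/512` to `1/66³`; `z ↦ 1/(4096 z)` fixes `1/64` and
exchanges `-1/8` and `-1/512`. A relation modulo `p³` with two derivative terms between the truncated series is proved for
pairs `z^p = z' (1 + p ν)` in an arbitrary ring with `p³ = 0`; over the ring of power series near `λ = -1` it shows that the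
symmetry `λ ↦ 1/λ` (the automorphism of order four of the curve with `j = 1728`) forces the first derivative term at
`z = -1/8` to be a multiple of the second.
-/

open Finset

namespace Pool.Agent.Results.MP_9f27ff_nt.DiscFourModPCubed

/-- `C_k = C(2k,k) C(3k,k) C(6k,3k)` -/
def C (k : ℕ) : ℕ := (2 * k).choose k * (3 * k).choose k * (6 * k).choose (3 * k)

/-- `S₁(p) = ∑_{0 ≤ k ≤ (p-1)/2} C(2k,k)³ 64^{-k}` -/
def S1 (p : ℕ) : ℚ := ∑ k ∈ range ((p - 1) / 2 + 1), ((2 * k).choose k : ℚ) ^ 3 / 64 ^ k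

/-- `S₂(p) = ∑_{0 ≤ k ≤ p-1} C_k 12^{-3k}` -/
def S2 (p : ℕ) : ℚ := ∑ k ∈ range p, (C k : ℚ) / 12 ^ (3 * k)

/-- `S₃(p) = ∑_{0 ≤ k ≤ p-1} C_k 66^{-3k}` -/
def S3 (p : ℕ) : ℚ := ∑ k ∈ range p, (C k : ℚ) / 66 ^ (3 * k)

/-- congruence modulo `p³`: `x - y = p³ u` with `u` rational, `p` not dividing the denominator of `u` -/
def Cong (p : ℕ) (x y : ℚ) : Prop := ∃ u : ℚ, ¬ p ∣ u.den ∧ x - y = (p : ℚ) ^ 3 * u

theorem result (p : ℕ) [Fact p.Prime] (hp3 : 3 < p) (h : p % 4 = 1) :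
    Cong p (S1 p) ((legendreSym p 3 : ℚ) * S2 p) ∧
    Cong p ((legendreSym p 3 : ℚ) * S2 p) ((legendreSym p 33 : ℚ) * S3 p) := by
  have e1 : S1 p = Pool.Agent.H547.P4.Sb 64 p := by
    unfold S1 Pool.Agent.H547.P4.Sb
    push_cast
    rfl
  have e2 : S2 p = Pool.Agent.H547.P3.Rd1f0b8.T 12 p := by
    unfold S2 Pool.Agent.H547.P3.Rd1f0b8.T
    refine sum_congr rfl fun k _ => ?_
    unfold C
    push_cast
    ring
  have e3 : S3 p = Pool.Agent.H547.P3.Rd1f0b8.T 66 p := by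
    unfold S3 Pool.Agent.H547.P3.Rd1f0b8.T
    refine sum_congr rfl fun k _ => ?_
    unfold C
    push_cast
    ring
  rw [e1, e2, e3]
  exact Pool.Agent.H547.P4.R9f27ff.main p hp3 h

end Pool.Agent.Results.MP_9f27ff_nt.DiscFourModPCubed
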